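import Pool.Agent.helper12.DD.Spec2

/-! BHH: blocks of wreath products. -/

set_option autoImplicit false

open Pool.Agent.helper49.Blk

namespace Pool.Agent.DD

/-- An integer prime to `p` is not in `M`. -/
theorem BHH_notMem (p : ℕ) (M : Ideal (integralClosure ℤ ℂ)) (hM : M.IsMaximal)
    (hpM : (p : integralClosure ℤ ℂ) ∈ M) (r : ℕ) (hr : Nat.Coprime r p) :
    (r : integralClosure ℤ ℂ) ∉ M := by
  intro h
  apply hM.ne_top
  rw [Ideal.eq_top_iff_one]
  have h1 : IsCoprime (r : ℤ) (p : ℤ) := Nat.isCoprime_iff_coprime.2 hr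
  obtain ⟨a, b, hab⟩ := h1
  have h2 : ((a : ℤ) : integralClosure ℤ ℂ) * (r : integralClosure ℤ ℂ) +
      ((b : ℤ) : integralClosure ℤ ℂ) * (p : integralClosure ℤ ℂ) = 1 := by
    have := congrArg (fun z : ℤ => (z : integralClosure ℤ ℂ)) hab
    simpa using this
  rw [← h2]
  exact M.add_mem (M.mul_mem_left _ h) (M.mul_mem_left _ hpM)

/-- Decomposition of a character of a product subgroup. -/
theorem BHH_dec (hTIS : TIS_stmt) (hTOM : TOM_stmt) (G T : Type) [Group G] [Finite G] [Fintype T]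
    (N₀ : Subgroup (T → G)) (Nt : T → Subgroup G) (h : N₀ = Subgroup.pi Set.univ Nt)
    (ψ : N₀ → ℂ) (hψ : ψ ∈ Irr N₀) :
    ∃ ψt : ∀ t, Nt t → ℂ, (∀ t, ψt t ∈ Irr (Nt t)) ∧
      ∀ g, omInd N₀ ψ g = ∏ t, omInd (Nt t) (ψt t) (g t) := by
  subst h
  obtain ⟨ψt, h1, h2⟩ := (hTIS G T Nt ψ).1 hψ
  refine ⟨ψt, h1, fun g => ?_⟩
  rw [h2]
  exact (hTOM G T g).2 Nt ψt

theorem BHH_shift {G Q : Type} [Group G] [Group Q] (c : Q) (f : Q → G) (t : Q) :
    (shift G Q c) f t = f (c⁻¹ * t) := rfl

theorem BHH (hCHQ : CHQ_stmt) (hTPR : TPR_stmt) (hTNC : TNC_stmt) (hTIS : TIS_stmt)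
    (hTOM : TOM_stmt) (hOBF : OBF_stmt) (hBVW : BVW_stmt) (hBVV : BVV_stmt) (hLAL : LAL_stmt)
    (hINF : INF_stmt) : BHH_stmt := by
  classical
  intro p hp M hM hpM G Q _ _ _ _ hq hqp hGq χ hχ χ' hχ' hext d₁ hd₁ hqd₁ d hqd C hC φ hφ ψ hψ
    hdφ hovr
  have nz : ∀ (G : Type) [Group G] [Finite G], ∀ χ ∈ Irr G, χ 1 ≠ 0 := by
    intro G _ _ χ hχ
    obtain ⟨n, hn, he⟩ := ((IRF G).2 χ hχ).1
    rw [he]
    exact_mod_cast hn.ne'
  have hfinW : Finite (Wr G Q) := Finite.of_equiv _ (SemidirectProduct.equivProd).symm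
  have hcop : Nat.Coprime (Nat.card Q) p := (Nat.coprime_primes hq hp).2 hqp
  have hqM : ((Nat.card Q : ℕ) : integralClosure ℤ ℂ) ∉ M := BHH_notMem p M hM hpM _ hcop
  -- the normaliser in the base group is a product
  have hN₀ : (NC (cW (κι G Q) C)).comap (κι G Q) =
      Subgroup.pi Set.univ (fun t => NC (C.map (cmp t))) := by
    have h1 := (hCHQ p (Nat.card Q) hp hq hqp (Q → G) (Wr G Q) (κι G Q)
      SemidirectProduct.inl_injective (by
        rw [SemidirectProduct.range_inl_eq_ker_rightHom]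
        infer_instance) (by rw [SemidirectProduct.card, mul_comm])).2.1 C
    rw [h1]
    exact hTNC G Q C (hTPR G Q p hp C hC)
  generalize NC (cW (κι G Q) C) = N at φ hφ ψ hψ hdφ hovr hN₀ ⊢
  obtain ⟨ψt, hψt, hom⟩ := BHH_dec hTIS hTOM G Q (N.comap (κι G Q)) _ hN₀ ψ hψ
  have hI0 : ∀ g, IsIntegral ℤ (omInd (N.comap (κι G Q)) ψ g) :=
    fun g => (all_INN (Q → G)).2 (N.comap (κι G Q)) ψ hψ g
  have hI1 : ∀ t h, IsIntegral ℤ (omInd (NC (C.map (cmp t))) (ψt t) h) :=
    fun t h => (all_INN G).2 _ (ψt t) (hψt t) h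
  have hI2 : ∀ h, IsIntegral ℤ (omega χ h) := fun h => (all_INN G).1 χ hχ h
  have hI3 : ∀ w, IsIntegral ℤ (omInd N φ w) := fun w => (all_INN (Wr G Q)).2 N φ hφ w
  have hI4 : ∀ w, IsIntegral ℤ (omega χ' w) := fun w => (all_INN (Wr G Q)).1 χ' hχ' w
  have hcl : ∀ g h, χ' (h * g * h⁻¹) = χ' g := ((IRF (Wr G Q)).2 χ' hχ').2
  have hte : (fun x => χ' (κι G Q x)) = tpow Q χ := funext hext
  have hob := hOBF G Q N φ hφ ψ hψ hovr χ' hcl
  have hpow : ∀ g : Q → G, omega (tpow Q χ) g = ∏ t, omega χ (g t) :=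
    fun g => (hTOM G Q g).1 χ
  -- the difference on the base group
  have hD : ∀ g : Q → G, IsIntegral ℤ (omInd N φ (κι G Q g) - omega χ' (κι G Q g)) :=
    fun g => (hI3 _).sub (hI4 _)
  constructor
  · intro h g
    -- now g : Q → G
    set A : Q → G → integralClosure ℤ ℂ := fun t h => ⟨_, hI1 t h⟩ with hA
    set B : G → integralClosure ℤ ℂ := fun h => ⟨_, hI2 h⟩ with hB
    let _ : Field (integralClosure ℤ ℂ ⧸ M) := Ideal.Quotient.field M
    have hinf : Infinite (integralClosure ℤ ℂ ⧸ M) := hINF p hp M hM hpM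
    have key : ∀ t, (fun h => Ideal.Quotient.mk M (A t h)) = fun h => Ideal.Quotient.mk M (B h) := by
      have hqk : ((Nat.card Q : ℕ) : (integralClosure ℤ ℂ ⧸ M)) ≠ 0 := by
        intro h0
        apply hqM
        rw [← Ideal.Quotient.eq_zero_iff_mem, map_natCast]
        exact h0
      refine hLAL (integralClosure ℤ ℂ ⧸ M) Q hq hqk G (fun t h => Ideal.Quotient.mk M (A t h))
        (fun h => Ideal.Quotient.mk M (B h)) ?_ ?_ ?_
      · intro t
        have : A t 1 = 1 := by
          apply Subtype.ext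
          exact IND_omInd_one _ (ψt t) (nz _ _ (hψt t))
        change Ideal.Quotient.mk M (A t 1) = 1
        rw [this, map_one]
      · have : B 1 = 1 := by
          apply Subtype.ext
          exact IND_omega_one χ (nz _ _ hχ)
        change Ideal.Quotient.mk M (B 1) = 1
        rw [this, map_one]
      · intro g
        obtain ⟨r, -, h1, h2⟩ := hob g
        obtain ⟨a, ha, hae⟩ := h (κι G Q g)
        rw [hte] at h2
        have h3 : (∑ c : Q, ∏ t, A t (g (c⁻¹ * t))) - ((Nat.card Q : ℕ) : integralClosure ℤ ℂ) *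
            ∏ t, B (g t) = (r : integralClosure ℤ ℂ) * a := by
          apply Subtype.ext
          have e1 : (((∑ c : Q, ∏ t, A t (g (c⁻¹ * t)) : integralClosure ℤ ℂ)) : ℂ) =
              ∑ c : Q, omInd (N.comap (κι G Q)) ψ (shift G Q c g) := by
            push_cast
            refine Finset.sum_congr rfl fun c _ => ?_
            rw [hom]
            rfl
          have e2 : ((((Nat.card Q : ℕ) : integralClosure ℤ ℂ) * ∏ t, B (g t) :
              integralClosure ℤ ℂ) : ℂ) = ∑ c : Q, omega (tpow Q χ) (shift G Q c g) := by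
            have e3 : ∀ c : Q, omega (tpow Q χ) (shift G Q c g) = ∏ t, omega χ (g t) := by
              intro c
              rw [hpow]
              exact Fintype.prod_equiv (Equiv.mulLeft c⁻¹) _ _ (fun t => rfl)
            rw [Finset.sum_congr rfl fun c _ => e3 c, Finset.sum_const, nsmul_eq_mul,
              Finset.card_univ, ← Nat.card_eq_fintype_card]
            push_cast
            rfl
          rw [Subalgebra.coe_sub, e1, e2, h1, h2, ← mul_sub, hae]
          push_cast
          rfl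
        have h4 := congrArg (Ideal.Quotient.mk M) h3
        rw [map_sub, map_mul, map_mul, map_natCast, Ideal.Quotient.eq_zero_iff_mem.2 ha, mul_zero,
          sub_eq_zero, map_sum, map_prod] at h4
        rw [← h4]
        refine Finset.sum_congr rfl fun c _ => ?_
        rw [map_prod]
    refine ⟨(∏ t, A t (g t)) - ∏ t, B (g t), ?_, ?_⟩
    · rw [← Ideal.Quotient.eq_zero_iff_mem, map_sub, map_prod, map_prod, sub_eq_zero]
      refine Finset.prod_congr rfl fun t _ => ?_
      exact congrFun (key t) (g t)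
    · rw [hom, hpow]
      push_cast
      rfl
  · intro h w
    by_cases hw : w.right = 1
    · -- base group
      have hwe : w = κι G Q w.left := by
        apply SemidirectProduct.ext
        · rfl
        · exact hw
      rw [hwe]
      generalize w.left = g
      obtain ⟨r, hr, h1, h2⟩ := hob g
      rw [hte] at h2
      choose a ha hae using fun c : Q => h (shift G Q c g)
      have h3 : (r : integralClosure ℤ ℂ) * ⟨_, hD g⟩ = ∑ c, a c := by
        apply Subtype.ext
        push_cast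
        rw [mul_sub, ← h1, ← h2, ← Finset.sum_sub_distrib]
        exact Finset.sum_congr rfl fun c _ => hae c
      have h4 : (r : integralClosure ℤ ℂ) * ⟨_, hD g⟩ ∈ M := by
        rw [h3]
        exact M.sum_mem fun c _ => ha c
      have hrM : (r : integralClosure ℤ ℂ) ∉ M := by
        apply BHH_notMem p M hM hpM
        exact Nat.Coprime.coprime_dvd_left hr hcop
      have h5 := (hM.isPrime.mem_or_mem h4).resolve_left hrM
      exact ⟨_, h5, rfl⟩
    · obtain ⟨a, ha, hae⟩ := hBVW p hp M hM hpM G Q hq hqp hGq N φ hφ d hdφ hqd w hw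
      obtain ⟨b, hb, hbe⟩ := hBVV p hp M hM hpM G Q hq hqp hGq (Wr G Q) (MonoidHom.id _)
        Function.injective_id χ' hχ' d₁ hd₁ hqd₁ w hw
      refine ⟨a - b, M.sub_mem ha hb, ?_⟩
      rw [hae, hbe]
      push_cast
      rfl

end Pool.Agent.DD
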